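import Pool.Agent.X136.KP.Tree
import Pool.Agent.X296.HT.Asy

open MeasureTheory Set
open scoped ENNReal NNReal

namespace Pool.Agent.X136.KP

theorem iter_pred (n x : ℕ) : Nat.pred^[n] x = x - n := by
  induction n generalizing x with
  | zero => simp
  | succ n ih => rw [Function.iterate_succ_apply, ih]; simp [Nat.pred_eq_sub_one]; omega

/-- the half-line as a tree -/
def lineT : RTree ℕ where
  pre := 0
  root := 1
  parent := Nat.pred
  parent_pre := rfl
  reach := fun x => ⟨x, by rw [iter_pred]; simp⟩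
  root_ne := by decide
  child_pre := by
    intro x hx
    cases x with
    | zero => exact absurd rfl hx
    | succ n => simp
  locFin := by
    intro y
    apply Set.Finite.subset (Set.finite_Icc 0 (y + 1))
    intro x hx
    have hx' : Nat.pred x = y := hx
    rw [Nat.pred_eq_sub_one] at hx'
    exact ⟨Nat.zero_le _, by omega⟩

theorem line_path (k : ℕ) (e : Edge lineT) : e ∈ path lineT (Sum.inl k) ↔ e.1 ≤ k := by
  constructor
  · rintro ⟨n, hn⟩
    have h : Nat.pred^[n] k = e.1 := hn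
    rw [iter_pred] at h
    omega
  · intro h
    refine ⟨k - e.1, ?_⟩
    show Nat.pred^[k - e.1] k = e.1
    rw [iter_pred]
    omega

/-- the edges of the half-line -/
def eqv : ℕ ≃ Edge lineT where
  toFun := fun j => ⟨j + 1, Nat.succ_ne_zero j⟩
  invFun := fun e => e.1 - 1
  left_inv := fun j => rfl
  right_inv := by
    intro e
    apply Subtype.ext
    have : e.1 ≠ 0 := e.2
    show e.1 - 1 + 1 = e.1
    omega

theorem Hop_line (φ : Edge lineT → ℝ≥0) (k : ℕ) :
    Hop lineT φ (Sum.inl k) = ∑ j ∈ Finset.range k, (φ (eqv j) : ℝ≥0∞) := by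
  induction k with
  | zero =>
    rw [Finset.range_zero, Finset.sum_empty]
    exact Hop_pre lineT φ
  | succ k ih =>
    have h : (k + 1 : ℕ) ≠ lineT.pre := Nat.succ_ne_zero k
    have h2 := Hop_step lineT φ h
    rw [h2, Finset.sum_range_succ, add_comm]
    congr 1

theorem energy_line (p : ℝ) (φ : Edge lineT → ℝ≥0) :
    energy lineT p (fun _ => 1) φ = ∑' j : ℕ, (φ (eqv j) : ℝ≥0∞) ^ p := by
  unfold energy
  rw [← eqv.tsum_eq (fun e : Edge lineT => (φ e : ℝ≥0∞) ^ p * ((1 : ℝ≥0) : ℝ≥0∞))]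
  simp

/-- the weights -/
noncomputable def aw (p : ℝ) (k : ℕ) : ℝ := ((k : ℝ) + 1) ^ (1 - p) - ((k : ℝ) + 2) ^ (1 - p)

theorem g_anti {p : ℝ} (hp : 1 < p) {x y : ℝ} (hx : 0 < x) (hxy : x ≤ y) :
    y ^ (1 - p) ≤ x ^ (1 - p) := Real.rpow_le_rpow_of_nonpos hx hxy (by linarith)

theorem aw_nonneg {p : ℝ} (hp : 1 < p) (k : ℕ) : 0 ≤ aw p k := by
  unfold aw
  have := g_anti hp (x := (k:ℝ) + 1) (y := (k : ℝ) + 2) (by positivity) (by linarith)
  linarith

/-- vertices as points -/
def pt (k : ℕ) : Tbar lineT := Sum.inl k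

/-- the measure -/
noncomputable def mu (p : ℝ) : Measure (Tbar lineT) :=
  Measure.sum fun k : ℕ => ENNReal.ofReal (aw p k) • Measure.dirac (pt (k + 1))

theorem mu_Suc {p : ℝ} (hp : 1 < p) (α : Edge lineT) :
    mu p (Suc lineT α) ≤ ENNReal.ofReal ((α.1 : ℝ) ^ (1 - p)) := by
  classical
  have hα : α.1 ≠ 0 := α.2
  have h1 : mu p (Suc lineT α) =
      ∑' k : ℕ, ENNReal.ofReal (aw p k) * (if α.1 ≤ k + 1 then 1 else 0) := by
    unfold mu
    rw [Measure.sum_apply _ (meas_Suc lineT α)]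
    apply tsum_congr
    intro k
    rw [Measure.smul_apply, Measure.dirac_apply' _ (meas_Suc lineT α), smul_eq_mul]
    congr 1
    by_cases h : α.1 ≤ k + 1
    · rw [indicator_of_mem, if_pos h]; rfl
      exact (line_path (k+1) α).2 h
    · rw [indicator_of_notMem, if_neg h]
      intro h2
      exact h ((line_path (k+1) α).1 h2)
  rw [h1, ENNReal.tsum_eq_iSup_nat]
  apply iSup_le
  intro M
  have key : ∀ M : ℕ, ∑ k ∈ Finset.range M, ENNReal.ofReal (aw p k) * (if α.1 ≤ k + 1 then 1 else 0)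
      ≤ ENNReal.ofReal ((α.1 : ℝ) ^ (1 - p) - ((max (M + 1) α.1 : ℕ) : ℝ) ^ (1 - p)) := by
    intro M
    induction M with
    | zero => simp
    | succ M ih =>
      rw [Finset.sum_range_succ]
      by_cases h : α.1 ≤ M + 1
      · rw [if_pos h, mul_one]
        rw [max_eq_left h] at ih
        rw [max_eq_left (by omega)]
        refine (add_le_add_left ih _).trans ?_
        rw [← ENNReal.ofReal_add _ (aw_nonneg hp M)]
        · apply ENNReal.ofReal_le_ofReal
          unfold aw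
          push_cast
          have : (M : ℝ) + 1 + 1 = M + 2 := by ring
          rw [this]
          linarith
        · have h0 : (0 : ℝ) < α.1 := by exact_mod_cast Nat.pos_of_ne_zero hα
          have h2 : (α.1 : ℝ) ≤ ((M + 1 : ℕ) : ℝ) := by exact_mod_cast h
          linarith [g_anti hp h0 h2]
      · rw [if_neg h, mul_zero, add_zero]
        rw [max_eq_right (by omega)] at ih
        rw [max_eq_right (by omega)]
        exact ih
  refine (key M).trans (ENNReal.ofReal_le_ofReal ?_)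
  have : 0 ≤ ((max (M + 1) α.1 : ℕ) : ℝ) ^ (1 - p) := Real.rpow_nonneg (Nat.cast_nonneg _) _
  linarith

theorem cap_line {p : ℝ} (hp : 1 < p) (A : Set (Tbar lineT)) (β : Edge lineT)
    (hA : (Sum.inl β.1 : Tbar lineT) ∈ A) :
    ENNReal.ofReal ((β.1 : ℝ) ^ (1 - p)) ≤ cap lineT p (fun _ => 1) A := by
  have hβ : β.1 ≠ 0 := β.2
  have h0 : (0 : ℝ) < β.1 := by exact_mod_cast Nat.pos_of_ne_zero hβ
  unfold cap
  apply le_iInf₂
  intro φ hφ
  have h1 := hφ _ hA
  rw [Hop_line] at h1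
  rw [energy_line]
  have h2 : (1 : ℝ≥0∞) ≤ ENNReal.ofReal ((β.1 : ℝ) ^ (p - 1)) * ∑' j : ℕ, (φ (eqv j) : ℝ≥0∞) ^ p := by
    calc (1 : ℝ≥0∞) ≤ (∑ j ∈ Finset.range β.1, (φ (eqv j) : ℝ≥0∞)) ^ p := by
          calc (1 : ℝ≥0∞) = 1 ^ p := by rw [ENNReal.one_rpow]
            _ ≤ _ := ENNReal.rpow_le_rpow h1 (by linarith)
      _ ≤ ((Finset.range β.1).card : ℝ≥0∞) ^ (p - 1) *
            ∑ j ∈ Finset.range β.1, (φ (eqv j) : ℝ≥0∞) ^ p :=
          ENNReal.rpow_sum_le_const_mul_sum_rpow _ _ hp.le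
      _ ≤ _ := by
          rw [Finset.card_range]
          apply mul_le_mul' (le_of_eq ?_) (ENNReal.sum_le_tsum _)
          rw [← ENNReal.ofReal_rpow_of_pos h0, ENNReal.ofReal_natCast]
  calc ENNReal.ofReal ((β.1 : ℝ) ^ (1 - p)) = ENNReal.ofReal ((β.1 : ℝ) ^ (1 - p)) * 1 := by rw [mul_one]
    _ ≤ ENNReal.ofReal ((β.1 : ℝ) ^ (1 - p)) *
        (ENNReal.ofReal ((β.1 : ℝ) ^ (p - 1)) * ∑' j : ℕ, (φ (eqv j) : ℝ≥0∞) ^ p) := by gcongr
    _ = _ := by
        rw [← mul_assoc, ← ENNReal.ofReal_mul (Real.rpow_nonneg h0.le _), ← Real.rpow_add h0]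
        simp

theorem iso_line {p : ℝ} (hp : 1 < p) : isoConst lineT p (fun _ => 1) (mu p) ≤ 1 := by
  classical
  unfold isoConst
  apply iSup₂_le
  rintro F ⟨⟨β, hβ⟩, hF⟩
  have hFs : F = {β} := by
    ext α
    rw [Finset.mem_singleton]
    constructor
    · intro hα
      by_contra hne
      have hd := hF (Finset.mem_coe.2 hα) (Finset.mem_coe.2 hβ) hne
      rw [Function.onFun, Set.disjoint_left] at hd
      exact hd (a := Sum.inl (max α.1 β.1)) ((line_path _ α).2 (le_max_left _ _))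
        ((line_path _ β).2 (le_max_right _ _))
    · rintro rfl; exact hβ
  subst hFs
  apply ENNReal.div_le_of_le_mul
  rw [Finset.sum_singleton, one_mul]
  refine (mu_Suc hp β).trans (cap_line hp _ β ?_)
  simp only [Finset.mem_singleton, iUnion_iUnion_eq_left]
  exact (line_path _ β).2 le_rfl

/-- test functions -/
noncomputable def phiN (p : ℝ) (N : ℕ) : Edge lineT → ℝ≥0 :=
  fun e => if e.1 ≤ N then (e.1 : ℝ≥0) ^ (-1 / p) else 0

theorem lower {p : ℝ} (hp : 1 < p) (K : ℝ≥0∞) (hK : hardyConst lineT p (fun _ => 1) (mu p) ≤ K) :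
    ENNReal.ofReal (p ^ p / (p - 1) ^ (p - 1)) ≤ K := by
  classical
  by_cases hKt : K = ⊤
  · rw [hKt]; exact le_top
  have hp0 : 0 < p := by linarith
  rw [← ENNReal.ofReal_toReal hKt]
  apply ENNReal.ofReal_le_ofReal
  apply Pool.Agent.X296.HT.t_ASY p hp K.toReal ENNReal.toReal_nonneg
  intro N
  rcases Nat.eq_zero_or_pos N with rfl | hN
  · simp
  -- energy
  have hphi : ∀ j : ℕ, j < N → (phiN p N (eqv j) : ℝ≥0∞) = ENNReal.ofReal (((j + 1 : ℕ) : ℝ) ^ (-1 / p)) := by
    intro j hj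
    have h1 : phiN p N (eqv j) = ((j + 1 : ℕ) : ℝ≥0) ^ (-1 / p) := by
      show (if j + 1 ≤ N then ((j + 1 : ℕ) : ℝ≥0) ^ (-1 / p) else 0) = _
      rw [if_pos (by omega)]
    rw [h1, ← ENNReal.ofReal_coe_nnreal, NNReal.coe_rpow]
    rfl
  have hphi0 : ∀ j : ℕ, N ≤ j → phiN p N (eqv j) = 0 := by
    intro j hj
    show (if j + 1 ≤ N then ((j + 1 : ℕ) : ℝ≥0) ^ (-1 / p) else 0) = _
    rw [if_neg (by omega)]
  have hE : energy lineT p (fun _ => 1) (phiN p N) =
      ENNReal.ofReal (∑ j ∈ Finset.Icc 1 N, (1 : ℝ) / j) := by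
    rw [energy_line, tsum_eq_sum (s := Finset.range N), Pool.Agent.X296.HT.sum_Icc_range,
      ENNReal.ofReal_sum_of_nonneg (fun i _ => by positivity)]
    · apply Finset.sum_congr rfl
      intro j hj
      rw [hphi j (Finset.mem_range.1 hj), ENNReal.ofReal_rpow_of_nonneg (by positivity) hp0.le]
      congr 1
      rw [← Real.rpow_mul (by positivity)]
      have : -1 / p * p = -1 := by field_simp
      rw [this, Real.rpow_neg_one, one_div]
    · intro j hj
      rw [Finset.mem_range, not_lt] at hj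
      rw [hphi0 j hj]
      simp [hp0]
  have hHpos : 0 < ∑ j ∈ Finset.Icc 1 N, (1 : ℝ) / j := by
    apply Finset.sum_pos
    · intro j hj
      have : 1 ≤ j := (Finset.mem_Icc.1 hj).1
      have : (0:ℝ) < j := by exact_mod_cast this
      positivity
    · exact ⟨1, Finset.mem_Icc.2 ⟨le_rfl, hN⟩⟩
  -- the integral
  have hint : ∫⁻ x, (Hop lineT (phiN p N) x) ^ p ∂(mu p) ≤ K * energy lineT p (fun _ => 1) (phiN p N) := by
    have hE0 : energy lineT p (fun _ => 1) (phiN p N) ≠ 0 := by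
      rw [hE]; exact (ENNReal.ofReal_pos.2 hHpos).ne'
    have hEt : energy lineT p (fun _ => 1) (phiN p N) ≠ ⊤ := by
      rw [hE]; exact ENNReal.ofReal_ne_top
    rw [← ENNReal.div_le_iff hE0 hEt]
    refine le_trans ?_ hK
    apply le_sInf
    intro C hC
    rw [ENNReal.div_le_iff hE0 hEt]
    exact hC _
  have hint2 : ENNReal.ofReal (∑ k ∈ Finset.Icc 1 N, ((k : ℝ) ^ (1 - p) - ((k : ℝ) + 1) ^ (1 - p)) *
      (∑ j ∈ Finset.Icc 1 k, (j : ℝ) ^ (-1 / p)) ^ p) ≤ ∫⁻ x, (Hop lineT (phiN p N) x) ^ p ∂(mu p) := by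
    have hmeas : Measurable (fun x => (Hop lineT (phiN p N) x) ^ p) := (meas_Hop lineT _).pow_const p
    unfold mu
    rw [lintegral_sum_measure]
    refine le_trans ?_ (ENNReal.sum_le_tsum (Finset.range N))
    rw [Pool.Agent.X296.HT.sum_Icc_range, ENNReal.ofReal_sum_of_nonneg]
    · apply Finset.sum_le_sum
      intro k hk
      rw [Finset.mem_range] at hk
      rw [lintegral_smul_measure, lintegral_dirac' _ hmeas, smul_eq_mul]
      have h1 : Hop lineT (phiN p N) (pt (k + 1)) =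
          ENNReal.ofReal (∑ j ∈ Finset.Icc 1 (k + 1), (j : ℝ) ^ (-1 / p)) := by
        rw [pt, Hop_line, Pool.Agent.X296.HT.sum_Icc_range,
          ENNReal.ofReal_sum_of_nonneg (fun i _ => by positivity)]
        apply Finset.sum_congr rfl
        intro j hj
        rw [Finset.mem_range] at hj
        exact hphi j (by omega)
      rw [h1, ENNReal.ofReal_rpow_of_nonneg (Finset.sum_nonneg fun i _ => by positivity) hp0.le,
        ← ENNReal.ofReal_mul (aw_nonneg hp k)]
      apply ENNReal.ofReal_le_ofReal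
      apply le_of_eq
      congr 1
      unfold aw
      push_cast
      have : (k : ℝ) + 1 + 1 = k + 2 := by ring
      rw [this]
    · intro k _
      apply mul_nonneg _ (Real.rpow_nonneg (Finset.sum_nonneg fun i _ => by positivity) _)
      have := aw_nonneg hp k
      unfold aw at this
      push_cast
      have h2 : (k : ℝ) + 1 + 1 = k + 2 := by ring
      rw [h2]
      exact this
  have hfin := hint2.trans hint
  rw [hE, ← ENNReal.ofReal_toReal hKt, ← ENNReal.ofReal_mul ENNReal.toReal_nonneg] at hfin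
  exact (ENNReal.ofReal_le_ofReal_iff (mul_nonneg ENNReal.toReal_nonneg hHpos.le)).1 hfin

end Pool.Agent.X136.KP
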