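import Mathlib

/-! MP_a9eb04_an: definitions (trees given by the parent map, boundary, Hardy operator, capacity, constants). -/

open MeasureTheory Set
open scoped ENNReal NNReal

namespace Pool.Agent.X136.KP

/-- A locally finite rooted tree, given by its parent map: `pre` is the pre-root `o*`, `root` the root `o`
(the only neighbour of `o*`); every vertex reaches `o*` by iterating `parent` (so there are no cycles); the edges are
the pairs `{x, parent x}`, `x ≠ o*`. -/
structure RTree (V : Type) where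
  pre : V
  root : V
  parent : V → V
  parent_pre : parent pre = pre
  reach : ∀ x, ∃ n : ℕ, parent^[n] x = pre
  root_ne : root ≠ pre
  child_pre : ∀ x, x ≠ pre → (parent x = pre ↔ x = root)
  locFin : ∀ y, {x | parent x = y}.Finite

variable {V : Type}

/-- Edges: the edge `{x, parent x}` is named by its lower end point `x ≠ o*`. -/
abbrev Edge (T : RTree V) : Type := {x : V // x ≠ T.pre}

/-- Infinite geodesics starting at `o*`. -/
def Ray (T : RTree V) : Type :=
  {ξ : ℕ → V // ξ 0 = T.pre ∧ ∀ n, ξ (n + 1) ≠ T.pre ∧ T.parent (ξ (n + 1)) = ξ n}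

/-- `T̄`: the vertices (leaves are identified with the finite maximal geodesics) and the infinite maximal geodesics. -/
def Tbar (T : RTree V) : Type := V ⊕ Ray T

/-- The set of edges of the geodesic `[o*, x]`, `x ∈ T̄`. -/
def path (T : RTree V) : Tbar T → Set (Edge T)
  | Sum.inl x => {e | ∃ n : ℕ, T.parent^[n] x = e.1}
  | Sum.inr ξ => {e | ∃ n : ℕ, ξ.1 n = e.1}

/-- The successor set `S(α)`. -/
def Suc (T : RTree V) (α : Edge T) : Set (Tbar T) := {x | α ∈ path T x}

/-- The topology generated by the sets `S(α)` and the vertex singletons. -/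
instance (T : RTree V) : TopologicalSpace (Tbar T) :=
  TopologicalSpace.generateFrom
    ({A | ∃ α : Edge T, A = Suc T α} ∪ {A | ∃ x : V, A = {(Sum.inl x : Tbar T)}})

instance (T : RTree V) : MeasurableSpace (Tbar T) := borel _

instance (T : RTree V) : BorelSpace (Tbar T) := ⟨rfl⟩

open Classical in
/-- The Hardy operator `I φ (x) = ∑_{α ∈ [o*,x]} φ(α)`. -/
noncomputable def Hop (T : RTree V) (φ : Edge T → ℝ≥0) (x : Tbar T) : ℝ≥0∞ :=
  ∑' e : Edge T, if e ∈ path T x then (φ e : ℝ≥0∞) else 0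

/-- The energy `∑ φ(α)^p π(α)`. -/
noncomputable def energy (T : RTree V) (p : ℝ) (w : Edge T → ℝ≥0) (φ : Edge T → ℝ≥0) : ℝ≥0∞ :=
  ∑' e : Edge T, (φ e : ℝ≥0∞) ^ p * (w e : ℝ≥0∞)

/-- `[μ]`: the smallest constant in the Hardy inequality. -/
noncomputable def hardyConst (T : RTree V) (p : ℝ) (w : Edge T → ℝ≥0) (μ : Measure (Tbar T)) : ℝ≥0∞ :=
  sInf {C : ℝ≥0∞ | ∀ φ : Edge T → ℝ≥0, ∫⁻ x, (Hop T φ x) ^ p ∂μ ≤ C * energy T p w φ}

/-- The capacity of a set. -/
noncomputable def cap (T : RTree V) (p : ℝ) (w : Edge T → ℝ≥0) (A : Set (Tbar T)) : ℝ≥0∞ :=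
  ⨅ (φ : Edge T → ℝ≥0) (_ : ∀ x ∈ A, 1 ≤ Hop T φ x), energy T p w φ

/-- `[[μ]]_c`: the supremum of `∑ μ(S(α_i)) / Cap(⋃ S(α_i))` over finite nonempty families of edges with pairwise
disjoint successor sets (`a / 0 = ∞` for `a > 0` and `0 / 0 = 0`). -/
noncomputable def isoConst (T : RTree V) (p : ℝ) (w : Edge T → ℝ≥0) (μ : Measure (Tbar T)) : ℝ≥0∞ :=
  ⨆ (F : Finset (Edge T)) (_ : F.Nonempty ∧ (F : Set (Edge T)).PairwiseDisjoint (Suc T)),
    (∑ α ∈ F, μ (Suc T α)) / cap T p w (⋃ α ∈ F, Suc T α)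

/-- The constants `K` with `[μ] ≤ K [[μ]]_c` for every locally finite tree, every weight and every measure. -/
def Good (p : ℝ) (K : ℝ≥0∞) : Prop :=
  ∀ (V : Type) [Countable V] (T : RTree V) (w : Edge T → ℝ≥0) (μ : Measure (Tbar T)),
    hardyConst T p w μ ≤ K * isoConst T p w μ

end Pool.Agent.X136.KP
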