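import Pool.Agent.X136.KP.Defs

open MeasureTheory Set
open scoped ENNReal NNReal

namespace Pool.Agent.X136.KP

variable {V : Type} (T : RTree V)

theorem RTree.ind {T : RTree V} {P : V → Prop} (h0 : P T.pre)
    (h1 : ∀ x, x ≠ T.pre → P (T.parent x) → P x) : ∀ x, P x := by
  have key : ∀ n : ℕ, ∀ x, T.parent^[n] x = T.pre → P x := by
    intro n
    induction n with
    | zero => intro x hx; simp at hx; rw [hx]; exact h0
    | succ n ih =>
      intro x hx
      by_cases hxp : x = T.pre
      · rw [hxp]; exact h0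
      · rw [Function.iterate_succ_apply] at hx
        exact h1 x hxp (ih _ hx)
  intro x
  obtain ⟨n, hn⟩ := T.reach x
  exact key n x hn

theorem iter_pre (n : ℕ) : T.parent^[n] T.pre = T.pre := by
  induction n with
  | zero => rfl
  | succ n ih => rw [Function.iterate_succ_apply, T.parent_pre, ih]

theorem no_cycle {x : V} (hx : x ≠ T.pre) (n : ℕ) : T.parent^[n] (T.parent x) ≠ x := by
  intro h
  have h' : T.parent^[n+1] x = x := by rw [Function.iterate_succ_apply]; exact h
  obtain ⟨m, hm⟩ := T.reach x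
  have h2 : ∀ k : ℕ, T.parent^[k * (n+1)] x = x := by
    intro k
    induction k with
    | zero => simp
    | succ k ih => rw [Nat.succ_mul, Function.iterate_add_apply, h', ih]
  have h3 := h2 m
  have h4 : m * (n+1) = (m * n) + m := by ring
  rw [h4, Function.iterate_add_apply, hm, iter_pre] at h3
  exact hx h3.symm

theorem path_pre : path T (Sum.inl T.pre) = ∅ := by
  ext e
  simp only [path, mem_ofPred_eq, iter_pre, mem_empty_iff_false, iff_false, not_exists]
  intro _ h
  exact e.2 h.symm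

theorem path_step {x : V} (hx : x ≠ T.pre) :
    path T (Sum.inl x) = insert ⟨x, hx⟩ (path T (Sum.inl (T.parent x))) := by
  ext e
  simp only [path, mem_ofPred_eq, mem_insert_iff]
  constructor
  · rintro ⟨n, hn⟩
    cases n with
    | zero => left; apply Subtype.ext; exact hn.symm
    | succ n => right; exact ⟨n, by rw [← hn, Function.iterate_succ_apply]⟩
  · rintro (h | ⟨n, hn⟩)
    · exact ⟨0, by rw [h]; rfl⟩
    · exact ⟨n + 1, by rw [Function.iterate_succ_apply]; exact hn⟩

theorem not_mem_path_parent {x : V} (hx : x ≠ T.pre) :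
    (⟨x, hx⟩ : Edge T) ∉ path T (Sum.inl (T.parent x)) := by
  rintro ⟨n, hn⟩
  exact no_cycle T hx n hn

theorem Hop_pre (φ : Edge T → ℝ≥0) : Hop T φ (Sum.inl T.pre) = 0 := by
  unfold Hop
  rw [path_pre]
  simp

theorem Hop_step (φ : Edge T → ℝ≥0) {x : V} (hx : x ≠ T.pre) :
    Hop T φ (Sum.inl x) = (φ ⟨x, hx⟩ : ℝ≥0∞) + Hop T φ (Sum.inl (T.parent x)) := by
  classical
  unfold Hop
  rw [path_step T hx, ENNReal.tsum_eq_add_tsum_ite (⟨x, hx⟩ : Edge T)]
  congr 1
  · simp
  · apply tsum_congr
    intro e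
    by_cases he : e = ⟨x, hx⟩
    · subst he
      simp [not_mem_path_parent T hx]
    · simp [he]

theorem Hop_lt_top (φ : Edge T → ℝ≥0) (x : V) : Hop T φ (Sum.inl x) < ⊤ := by
  revert x
  apply RTree.ind
  · rw [Hop_pre]; simp
  · intro x hx ih
    rw [Hop_step T φ hx]
    exact ENNReal.add_lt_top.2 ⟨ENNReal.coe_lt_top, ih⟩

/-- value at a vertex -/
noncomputable def val (φ : Edge T → ℝ≥0) (x : V) : ℝ≥0 := (Hop T φ (Sum.inl x)).toNNReal

theorem coe_val (φ : Edge T → ℝ≥0) (x : V) : (val T φ x : ℝ≥0∞) = Hop T φ (Sum.inl x) :=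
  ENNReal.coe_toNNReal (Hop_lt_top T φ x).ne

theorem val_pre (φ : Edge T → ℝ≥0) : val T φ T.pre = 0 := by
  unfold val; rw [Hop_pre]; rfl

theorem val_step (φ : Edge T → ℝ≥0) {x : V} (hx : x ≠ T.pre) :
    val T φ x = φ ⟨x, hx⟩ + val T φ (T.parent x) := by
  have := Hop_step T φ hx
  rw [← coe_val, ← coe_val] at this
  exact_mod_cast this

/-- Telescoping. -/
theorem Hop_tele (φ : Edge T → ℝ≥0) (h : ℝ≥0 → ℝ≥0) (hm : Monotone h) (h0 : h 0 = 0) (x : V) :
    Hop T (fun e => h (val T φ e.1) - h (val T φ (T.parent e.1))) (Sum.inl x) = h (val T φ x) := by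
  revert x
  apply RTree.ind
  · rw [Hop_pre, val_pre, h0]; simp
  · intro x hx ih
    rw [Hop_step _ _ hx, ih]
    have : h (val T φ (T.parent x)) ≤ h (val T φ x) := by
      apply hm
      rw [val_step T φ hx]
      exact le_add_self
    exact_mod_cast tsub_add_cancel_of_le this

theorem ray_iter (ξ : Ray T) : ∀ m n : ℕ, m ≤ n → T.parent^[m] (ξ.1 n) = ξ.1 (n - m) := by
  intro m
  induction m with
  | zero => intro n _; rfl
  | succ m ih =>
    intro n hmn
    obtain ⟨k, rfl⟩ : ∃ k, n = k + 1 := ⟨n - 1, by omega⟩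
    rw [Function.iterate_succ_apply, (ξ.2.2 k).2, ih k (by omega),
      show k + 1 - (m + 1) = k - m by omega]

theorem path_mono {x : Tbar T} {α : Edge T} (h : α ∈ path T x) : path T (Sum.inl α.1) ⊆ path T x := by
  rintro e ⟨m, hm⟩
  match x, h with
  | Sum.inl y, ⟨n, hn⟩ =>
    refine ⟨m + n, ?_⟩
    rw [Function.iterate_add_apply, hn, hm]
  | Sum.inr ξ, ⟨n, hn⟩ =>
    -- parent^[m] (ξ n) = ξ (n - m) if m ≤ n, and = pre otherwise
    have key := ray_iter T ξ
    by_cases hmn : m ≤ n
    · refine ⟨n - m, ?_⟩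
      rw [← key m n hmn, hn, hm]
    · exfalso
      have h1 : T.parent^[m] (ξ.1 n) = T.pre := by
        have : m = (m - n) + n := by omega
        rw [this, Function.iterate_add_apply, key n n le_rfl, Nat.sub_self, ξ.2.1, iter_pre]
      rw [hn, hm] at h1
      exact e.2 h1

theorem Hop_mono_path (φ : Edge T → ℝ≥0) {x y : Tbar T} (h : path T x ⊆ path T y) :
    Hop T φ x ≤ Hop T φ y := by
  classical
  unfold Hop
  apply ENNReal.tsum_le_tsum
  intro e
  by_cases he : e ∈ path T x
  · simp [he, h he]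
  · simp [he]

/-- every ray point has value the supremum along the ray. -/
theorem exists_vertex (φ : Edge T → ℝ≥0) (x : Tbar T) (t : ℝ≥0∞) (h : t < Hop T φ x) :
    ∃ α : Edge T, α ∈ path T x ∧ t < Hop T φ (Sum.inl α.1) := by
  classical
  match x, h with
  | Sum.inl y, h =>
    by_cases hy : y = T.pre
    · rw [hy, Hop_pre] at h
      exact absurd h not_lt_bot
    · exact ⟨⟨y, hy⟩, ⟨0, rfl⟩, h⟩
  | Sum.inr ξ, h =>
    unfold Hop at h
    rw [ENNReal.tsum_eq_iSup_sum, lt_iSup_iff] at h
    obtain ⟨F, hF⟩ := h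
    -- a bound for the indices
    have hex : ∃ N : ℕ, ∀ e ∈ F, e ∈ path T (Sum.inr ξ) → ∃ n ≤ N, ξ.1 n = e.1 := by
      clear hF
      induction F using Finset.induction_on with
      | empty => exact ⟨0, by simp⟩
      | insert a s ha ih =>
        obtain ⟨N, hN⟩ := ih
        by_cases hap : a ∈ path T (Sum.inr ξ)
        · obtain ⟨n, hn⟩ := id hap
          refine ⟨max N n, ?_⟩
          intro e he hep
          rw [Finset.mem_insert] at he
          rcases he with rfl | he
          · exact ⟨n, le_max_right _ _, hn⟩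
          · obtain ⟨k, hk, hk2⟩ := hN e he hep
            exact ⟨k, hk.trans (le_max_left _ _), hk2⟩
        · refine ⟨N, ?_⟩
          intro e he hep
          rw [Finset.mem_insert] at he
          rcases he with rfl | he
          · exact absurd hep hap
          · exact hN e he hep
    obtain ⟨N, hN⟩ := hex
    refine ⟨⟨ξ.1 (N+1), (ξ.2.2 N).1⟩, ⟨N+1, rfl⟩, hF.trans_le ?_⟩
    have key := ray_iter T ξ
    refine le_trans ?_ (ENNReal.sum_le_tsum F)
    apply Finset.sum_le_sum
    intro e he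
    by_cases hep : e ∈ path T (Sum.inr ξ)
    · obtain ⟨n, hn, hn2⟩ := hN e he hep
      have : e ∈ path T (Sum.inl (ξ.1 (N+1))) := by
        refine ⟨N + 1 - n, ?_⟩
        rw [key _ _ (by omega), ← hn2, show N + 1 - (N + 1 - n) = n by omega]
      simp [hep, this]
    · simp [hep]

/-- the first edge where the value exceeds `t` -/
theorem exists_stop (φ : Edge T → ℝ≥0) (t : ℝ≥0) (y : V) (h : t < val T φ y) :
    ∃ α : Edge T, α ∈ path T (Sum.inl y) ∧ val T φ (T.parent α.1) ≤ t ∧ t < val T φ α.1 := by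
  revert h
  revert y
  apply RTree.ind
  · intro h
    rw [val_pre] at h
    exact absurd h not_lt_bot
  · intro x hx ih h
    by_cases hp : t < val T φ (T.parent x)
    · obtain ⟨α, h1, h2⟩ := ih hp
      refine ⟨α, ?_, h2⟩
      rw [path_step T hx]
      exact mem_insert_of_mem _ h1
    · exact ⟨⟨x, hx⟩, ⟨0, rfl⟩, not_lt.1 hp, h⟩

theorem val_parent_le (φ : Edge T → ℝ≥0) (x : V) : val T φ (T.parent x) ≤ val T φ x := by
  by_cases hx : x = T.pre
  · rw [hx, T.parent_pre]
  · rw [val_step T φ hx]; exact le_add_self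

theorem val_iter_le (φ : Edge T → ℝ≥0) (n : ℕ) (x : V) : val T φ (T.parent^[n] x) ≤ val T φ x := by
  induction n generalizing x with
  | zero => exact le_rfl
  | succ n ih =>
    rw [Function.iterate_succ_apply]
    exact (ih _).trans (val_parent_le T φ x)

/-- the stopping edges -/
def Stop (φ : Edge T → ℝ≥0) (t : ℝ≥0) : Set (Edge T) :=
  {α | val T φ (T.parent α.1) ≤ t ∧ t < val T φ α.1}

theorem chain {x : Tbar T} {α β : Edge T} (ha : α ∈ path T x) (hb : β ∈ path T x) :
    α ∈ path T (Sum.inl β.1) ∨ β ∈ path T (Sum.inl α.1) := by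
  match x, ha, hb with
  | Sum.inl y, ⟨n, hn⟩, ⟨m, hm⟩ =>
    rcases le_total n m with h | h
    · right
      refine ⟨m - n, ?_⟩
      rw [← hn, ← Function.iterate_add_apply, Nat.sub_add_cancel h, hm]
    · left
      refine ⟨n - m, ?_⟩
      rw [← hm, ← Function.iterate_add_apply, Nat.sub_add_cancel h, hn]
  | Sum.inr ξ, ⟨n, hn⟩, ⟨m, hm⟩ =>
    have key := ray_iter T ξ
    rcases le_total n m with h | h
    · left
      refine ⟨m - n, ?_⟩
      rw [← hm, key _ _ (by omega), ← hn, show m - (m - n) = n by omega]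
    · right
      refine ⟨n - m, ?_⟩
      rw [← hn, key _ _ (by omega), ← hm, show n - (n - m) = m by omega]

theorem stop_disj (φ : Edge T → ℝ≥0) (t : ℝ≥0) : (Stop T φ t).PairwiseDisjoint (Suc T) := by
  intro α ha β hb hab
  rw [Function.onFun, Set.disjoint_left]
  intro x hxa hxb
  have aux : ∀ α β : Edge T, α ∈ Stop T φ t → β ∈ Stop T φ t → α ≠ β →
      α ∈ path T (Sum.inl β.1) → False := by
    rintro α β ha hb hab ⟨n, hn⟩
    cases n with
    | zero => exact hab (Subtype.ext hn.symm)
    | succ n =>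
      rw [Function.iterate_succ_apply] at hn
      have := val_iter_le T φ n (T.parent β.1)
      rw [hn] at this
      exact absurd (this.trans hb.1) (not_le.2 ha.2)
  rcases chain T hxa hxb with h | h
  · exact aux α β ha hb hab h
  · exact aux β α hb ha hab.symm h

theorem root_mem (x : V) : x ≠ T.pre → (⟨T.root, T.root_ne⟩ : Edge T) ∈ path T (Sum.inl x) := by
  revert x
  apply RTree.ind
  · intro h; exact absurd rfl h
  · intro x hx ih _
    by_cases h : T.parent x = T.pre
    · exact ⟨0, (T.child_pre x hx).1 h⟩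
    · rw [path_step T hx]
      exact mem_insert_of_mem _ (ih h)

theorem cap_lt_top (p : ℝ) (hp : 0 < p) (w : Edge T → ℝ≥0) (A : Set (Tbar T))
    (hA : ∀ x ∈ A, ∃ α, x ∈ Suc T α) : cap T p w A < ⊤ := by
  classical
  let r : Edge T := ⟨T.root, T.root_ne⟩
  let φ : Edge T → ℝ≥0 := fun e => if e = r then 1 else 0
  have h1 : ∀ x ∈ A, 1 ≤ Hop T φ x := by
    intro x hx
    obtain ⟨α, ha⟩ := hA x hx
    have : r ∈ path T x := path_mono T ha (root_mem T α.1 α.2)
    calc (1 : ℝ≥0∞) = (if r ∈ path T x then (φ r : ℝ≥0∞) else 0) := by simp [this, φ]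
      _ ≤ _ := ENNReal.le_tsum r
  have h2 : energy T p w φ < ⊤ := by
    unfold energy
    rw [tsum_eq_single r]
    · simp [φ]
    · intro e he
      simp [φ, he, hp]
  exact (iInf₂_le φ h1).trans_lt h2

theorem meas_Suc (α : Edge T) : MeasurableSet (Suc T α) := by
  apply IsOpen.measurableSet
  apply TopologicalSpace.isOpen_generateFrom_of_mem
  left
  exact ⟨α, rfl⟩

theorem meas_Hop [Countable V] (φ : Edge T → ℝ≥0) : Measurable (Hop T φ) := by
  classical
  unfold Hop
  apply Measurable.tsum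
  intro e
  exact Measurable.ite (meas_Suc T e) measurable_const measurable_const

end Pool.Agent.X136.KP
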