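import Pool.Agent.X136.KP.Tree
import Pool.Agent.X136.HT.Stm

open MeasureTheory Set
open scoped ENNReal NNReal
open Pool.Agent.X136.HT (S_EDGE)

namespace Pool.Agent.X136.KP

variable {V : Type} (T : RTree V)

/-- test profile -/
noncomputable def prof (p t : ℝ) (s : ℝ≥0) : ℝ≥0 := (min (s / t.toNNReal) 1) ^ (p / (p - 1))

theorem prof_mono {p : ℝ} (hp : 1 < p) (t : ℝ) : Monotone (prof p t) := by
  intro a b hab
  unfold prof
  apply NNReal.rpow_le_rpow _ (div_nonneg (by linarith) (by linarith))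
  apply min_le_min _ le_rfl
  gcongr

theorem prof_zero {p : ℝ} (hp : 1 < p) (t : ℝ) : prof p t 0 = 0 := by
  unfold prof
  rw [zero_div, min_eq_left zero_le_one, NNReal.zero_rpow]
  exact (div_pos (by linarith) (by linarith)).ne'

theorem prof_one {p t : ℝ} (ht : 0 < t) {s : ℝ≥0} (h : t.toNNReal ≤ s) : prof p t s = 1 := by
  unfold prof
  have h0 : 0 < t.toNNReal := Real.toNNReal_pos.2 ht
  rw [min_eq_right, NNReal.one_rpow]
  rw [le_div_iff₀ h0]
  simpa using h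

/-- the test function of level t -/
noncomputable def wt (p : ℝ) (φ : Edge T → ℝ≥0) (t : ℝ) : Edge T → ℝ≥0 :=
  fun e => prof p t (val T φ e.1) - prof p t (val T φ (T.parent e.1))

theorem level [Countable V] {p : ℝ} (hp : 1 < p) (w : Edge T → ℝ≥0) (μ : Measure (Tbar T))
    (hiso : isoConst T p w μ ≠ ⊤) (φ : Edge T → ℝ≥0) {t : ℝ} (ht : 0 < t) :
    μ {x | ENNReal.ofReal t < Hop T φ x} ≤ isoConst T p w μ * energy T p w (wt T p φ t) := by
  classical
  set τ : ℝ≥0 := t.toNNReal with hτ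
  have hsub : {x | ENNReal.ofReal t < Hop T φ x} ⊆ ⋃ α : Stop T φ τ, Suc T α.1 := by
    intro x hx
    have hx' : (τ : ℝ≥0∞) < Hop T φ x := hx
    obtain ⟨α, ha, hat⟩ := exists_vertex T φ x _ hx'
    rw [← coe_val] at hat
    have hat' : τ < val T φ α.1 := by exact_mod_cast hat
    obtain ⟨β, hb, hb2⟩ := exists_stop T φ τ α.1 hat'
    exact mem_iUnion.2 ⟨⟨β, hb2⟩, path_mono T ha hb⟩
  refine (measure_mono hsub).trans ((measure_iUnion_le _).trans ?_)
  rw [ENNReal.tsum_eq_iSup_sum]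
  apply iSup_le
  intro F
  rcases F.eq_empty_or_nonempty with rfl | hF
  · simp
  let F' : Finset (Edge T) := F.map (Function.Embedding.subtype _)
  have hsum : ∑ α ∈ F, μ (Suc T α.1) = ∑ α ∈ F', μ (Suc T α) := by
    rw [Finset.sum_map]; rfl
  rw [hsum]
  have hF'S : ∀ α ∈ F', α ∈ Stop T φ τ := by
    intro α ha
    rw [Finset.mem_map] at ha
    obtain ⟨b, _, rfl⟩ := ha
    exact b.2
  have hF' : F'.Nonempty ∧ (F' : Set (Edge T)).PairwiseDisjoint (Suc T) := by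
    refine ⟨Finset.map_nonempty.2 hF, ?_⟩
    exact (stop_disj T φ τ).subset (fun α ha => hF'S α ha)
  have h1 : (∑ α ∈ F', μ (Suc T α)) / cap T p w (⋃ α ∈ F', Suc T α) ≤ isoConst T p w μ := by
    unfold isoConst
    exact le_iSup₂ (f := fun (F : Finset (Edge T))
      (_ : F.Nonempty ∧ (F : Set (Edge T)).PairwiseDisjoint (Suc T)) =>
        (∑ α ∈ F, μ (Suc T α)) / cap T p w (⋃ α ∈ F, Suc T α)) F' hF'
  have hcap : cap T p w (⋃ α ∈ F', Suc T α) < ⊤ := by
    apply cap_lt_top T p (by linarith)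
    intro x hx
    simp only [mem_iUnion] at hx
    obtain ⟨α, _, h⟩ := hx
    exact ⟨α, h⟩
  have h2 : ∑ α ∈ F', μ (Suc T α) ≤ isoConst T p w μ * cap T p w (⋃ α ∈ F', Suc T α) := by
    rwa [ENNReal.div_le_iff_le_mul (Or.inr hiso) (Or.inl hcap.ne)] at h1
  refine h2.trans ?_
  gcongr
  refine iInf₂_le (wt T p φ t) ?_
  intro x hx
  simp only [mem_iUnion] at hx
  obtain ⟨α, ha, hxa⟩ := hx
  refine le_trans ?_ (Hop_mono_path T _ (path_mono T hxa))
  have hw : wt T p φ t = fun e => prof p t (val T φ e.1) - prof p t (val T φ (T.parent e.1)) := rfl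
  rw [hw, Hop_tele T φ (prof p t) (prof_mono hp t) (prof_zero hp t), prof_one ht (hF'S α ha).2.le]
  simp

theorem edge_bound (hE : S_EDGE) {p : ℝ} (hp : 1 < p) (φ : Edge T → ℝ≥0) (e : Edge T) :
    ENNReal.ofReal p * ∫⁻ t in Ioi (0 : ℝ), (wt T p φ t e : ℝ≥0∞) ^ p * ENNReal.ofReal (t ^ (p - 1))
      ≤ ENNReal.ofReal (p ^ p / (p - 1) ^ (p - 1)) * (φ e : ℝ≥0∞) ^ p := by
  have h := hE p hp (val T φ (T.parent e.1)) (val T φ e.1) (NNReal.coe_nonneg _)
    (by exact_mod_cast val_parent_le T φ e.1)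
  have hC : 0 ≤ p ^ p / (p - 1) ^ (p - 1) :=
    div_nonneg (Real.rpow_nonneg (by linarith) _) (Real.rpow_nonneg (by linarith) _)
  have hφ : ((φ e : ℝ≥0) : ℝ) = val T φ e.1 - val T φ (T.parent e.1) := by
    have := val_step T φ e.2
    have h2 : (val T φ e.1 : ℝ) = φ e + val T φ (T.parent e.1) := by exact_mod_cast this
    linarith
  have hr : ENNReal.ofReal (p ^ p / (p - 1) ^ (p - 1) *
      ((val T φ e.1 : ℝ) - val T φ (T.parent e.1)) ^ p)
      = ENNReal.ofReal (p ^ p / (p - 1) ^ (p - 1)) * (φ e : ℝ≥0∞) ^ p := by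
    rw [← hφ, ENNReal.ofReal_mul hC, ← ENNReal.ofReal_rpow_of_nonneg (NNReal.coe_nonneg _) (by linarith),
      ENNReal.ofReal_coe_nnreal]
  rw [hr] at h
  refine le_trans (le_of_eq ?_) h
  rw [← lintegral_const_mul' _ _ ENNReal.ofReal_ne_top]
  apply setLIntegral_congr_fun measurableSet_Ioi
  intro t ht
  have ht0 : (0:ℝ) < t := ht
  simp only
  have hw : ((wt T p φ t e : ℝ≥0) : ℝ) =
      (min ((val T φ e.1 : ℝ) / t) 1) ^ (p / (p - 1)) -
        (min ((val T φ (T.parent e.1) : ℝ) / t) 1) ^ (p / (p - 1)) := by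
    rw [wt, NNReal.coe_sub (prof_mono hp t (val_parent_le T φ e.1))]
    simp only [prof, NNReal.coe_rpow, NNReal.coe_min, NNReal.coe_div, NNReal.coe_one,
      Real.coe_toNNReal t ht0.le]
  rw [← hw, ENNReal.ofReal_mul (mul_nonneg (by linarith) (Real.rpow_nonneg (NNReal.coe_nonneg _) _)),
    ENNReal.ofReal_mul (by linarith),
    ← ENNReal.ofReal_rpow_of_nonneg (NNReal.coe_nonneg _) (by linarith), ENNReal.ofReal_coe_nnreal,
    mul_assoc]

theorem meas_wt {p : ℝ} (φ : Edge T → ℝ≥0) (e : Edge T) : Measurable (fun t : ℝ => wt T p φ t e) := by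
  unfold wt prof
  fun_prop

theorem main_n [Countable V] (hE : S_EDGE) {p : ℝ} (hp : 1 < p) (w : Edge T → ℝ≥0)
    (μ : Measure (Tbar T)) (hiso : isoConst T p w μ ≠ ⊤) (φ : Edge T → ℝ≥0) (n : ℕ) :
    ∫⁻ x, (min (Hop T φ x) n) ^ p ∂μ ≤
      ENNReal.ofReal (p ^ p / (p - 1) ^ (p - 1)) * isoConst T p w μ * energy T p w φ := by
  set f : Tbar T → ℝ := fun x => (min (Hop T φ x) (n : ℝ≥0∞)).toReal with hf
  have hfin : ∀ x, min (Hop T φ x) (n : ℝ≥0∞) ≠ ⊤ := fun x =>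
    ((min_le_right _ _).trans_lt (ENNReal.natCast_lt_top n)).ne
  have hfm : Measurable f := ((meas_Hop T φ).min measurable_const).ennreal_toReal
  have h1 : ∫⁻ x, (min (Hop T φ x) n) ^ p ∂μ = ∫⁻ x, ENNReal.ofReal (f x ^ p) ∂μ := by
    apply lintegral_congr
    intro x
    rw [← ENNReal.ofReal_rpow_of_nonneg ENNReal.toReal_nonneg (by linarith),
      ENNReal.ofReal_toReal (hfin x)]
  rw [h1, lintegral_rpow_eq_lintegral_meas_lt_mul μ (Filter.Eventually.of_forall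
    (fun x => ENNReal.toReal_nonneg)) hfm.aemeasurable (by linarith)]
  have h2 : ∀ t : ℝ, 0 < t → μ {x | t < f x} ≤ isoConst T p w μ * energy T p w (wt T p φ t) := by
    intro t ht
    refine le_trans (measure_mono ?_) (level T hp w μ hiso φ ht)
    intro x hx
    have hx' : t < (min (Hop T φ x) (n : ℝ≥0∞)).toReal := hx
    have := (ENNReal.ofReal_lt_iff_lt_toReal ht.le (hfin x)).2 hx'
    exact this.trans_le (min_le_left _ _)
  have h3 : ∫⁻ t in Ioi (0:ℝ), μ {x | t < f x} * ENNReal.ofReal (t ^ (p - 1)) ≤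
      ∫⁻ t in Ioi (0:ℝ), isoConst T p w μ * ∑' e : Edge T,
        (w e : ℝ≥0∞) * ((wt T p φ t e : ℝ≥0∞) ^ p * ENNReal.ofReal (t ^ (p - 1))) := by
    apply setLIntegral_mono' measurableSet_Ioi
    intro t ht
    calc μ {x | t < f x} * ENNReal.ofReal (t ^ (p - 1))
        ≤ (isoConst T p w μ * energy T p w (wt T p φ t)) * ENNReal.ofReal (t ^ (p - 1)) := by
          gcongr; exact h2 t ht
      _ = _ := by
          rw [mul_assoc]
          congr 1
          unfold energy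
          rw [← ENNReal.tsum_mul_right]
          apply tsum_congr
          intro e
          ring
  have h4 : ∫⁻ t in Ioi (0:ℝ), isoConst T p w μ * ∑' e : Edge T,
        (w e : ℝ≥0∞) * ((wt T p φ t e : ℝ≥0∞) ^ p * ENNReal.ofReal (t ^ (p - 1)))
      = isoConst T p w μ * ∑' e : Edge T, (w e : ℝ≥0∞) *
          ∫⁻ t in Ioi (0:ℝ), ((wt T p φ t e : ℝ≥0∞) ^ p * ENNReal.ofReal (t ^ (p - 1))) := by
    have hm : ∀ e : Edge T, Measurable (fun t : ℝ => (wt T p φ t e : ℝ≥0∞) ^ p *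
        ENNReal.ofReal (t ^ (p - 1))) := by
      intro e
      have := (meas_wt T (p := p) φ e).coe_nnreal_ennreal
      exact (this.pow_const p).mul (by fun_prop)
    rw [lintegral_const_mul' _ _ hiso, lintegral_tsum (fun e => ((hm e).const_mul _).aemeasurable)]
    congr 1
    apply tsum_congr
    intro e
    rw [lintegral_const_mul _ (hm e)]
  calc ENNReal.ofReal p * ∫⁻ t in Ioi (0:ℝ), μ {x | t < f x} * ENNReal.ofReal (t ^ (p - 1))
      ≤ ENNReal.ofReal p * (isoConst T p w μ * ∑' e : Edge T, (w e : ℝ≥0∞) *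
          ∫⁻ t in Ioi (0:ℝ), ((wt T p φ t e : ℝ≥0∞) ^ p * ENNReal.ofReal (t ^ (p - 1)))) := by
        gcongr
        exact h3.trans h4.le
    _ = isoConst T p w μ * ∑' e : Edge T, (w e : ℝ≥0∞) * (ENNReal.ofReal p *
          ∫⁻ t in Ioi (0:ℝ), ((wt T p φ t e : ℝ≥0∞) ^ p * ENNReal.ofReal (t ^ (p - 1)))) := by
        rw [mul_left_comm, ← ENNReal.tsum_mul_left]
        congr 1
        apply tsum_congr
        intro e
        ring
    _ ≤ isoConst T p w μ * ∑' e : Edge T, (w e : ℝ≥0∞) *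
          (ENNReal.ofReal (p ^ p / (p - 1) ^ (p - 1)) * (φ e : ℝ≥0∞) ^ p) := by
        exact mul_le_mul' le_rfl (ENNReal.tsum_le_tsum fun e =>
          mul_le_mul' le_rfl (edge_bound T hE hp φ e))
    _ = _ := by
        have h5 : ∑' e : Edge T, (w e : ℝ≥0∞) *
            (ENNReal.ofReal (p ^ p / (p - 1) ^ (p - 1)) * (φ e : ℝ≥0∞) ^ p) =
            ENNReal.ofReal (p ^ p / (p - 1) ^ (p - 1)) * ∑' e : Edge T, (φ e : ℝ≥0∞) ^ p * (w e : ℝ≥0∞) := by
          rw [← ENNReal.tsum_mul_left]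
          apply tsum_congr
          intro e
          ring
        rw [h5]
        unfold energy
        ring

theorem upper [Countable V] (hE : S_EDGE) {p : ℝ} (hp : 1 < p) (w : Edge T → ℝ≥0)
    (μ : Measure (Tbar T)) :
    hardyConst T p w μ ≤ ENNReal.ofReal (p ^ p / (p - 1) ^ (p - 1)) * isoConst T p w μ := by
  have hC : 0 < p ^ p / (p - 1) ^ (p - 1) :=
    div_pos (Real.rpow_pos_of_pos (by linarith) _) (Real.rpow_pos_of_pos (by linarith) _)
  by_cases hiso : isoConst T p w μ = ⊤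
  · rw [hiso, ENNReal.mul_top (ENNReal.ofReal_pos.2 hC).ne']
    exact le_top
  apply sInf_le
  intro φ
  have hmono : Monotone (fun (n : ℕ) (x : Tbar T) => (min (Hop T φ x) (n : ℝ≥0∞)) ^ p) := by
    intro n m hnm x
    have : (n : ℝ≥0∞) ≤ (m : ℝ≥0∞) := by exact_mod_cast hnm
    exact ENNReal.rpow_le_rpow (min_le_min le_rfl this) (by linarith)
  have hle : ∀ x, (Hop T φ x) ^ p ≤ ⨆ n : ℕ, (min (Hop T φ x) (n : ℝ≥0∞)) ^ p := by
    intro x
    by_cases hx : Hop T φ x = ⊤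
    · have : ⨆ n : ℕ, (min (Hop T φ x) (n : ℝ≥0∞)) ^ p = ⊤ := by
        rw [hx]
        rw [iSup_eq_top]
        intro b hb
        obtain ⟨n, hn⟩ := ENNReal.exists_nat_gt hb.ne
        refine ⟨n + 1, ?_⟩
        have h1 : (1 : ℝ≥0∞) ≤ ((n + 1 : ℕ) : ℝ≥0∞) := by exact_mod_cast Nat.succ_le_succ (Nat.zero_le n)
        calc b < n := hn
          _ ≤ ((n + 1 : ℕ) : ℝ≥0∞) := by exact_mod_cast Nat.le_succ n
          _ = ((n + 1 : ℕ) : ℝ≥0∞) ^ (1 : ℝ) := by rw [ENNReal.rpow_one]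
          _ ≤ ((n + 1 : ℕ) : ℝ≥0∞) ^ p := ENNReal.rpow_le_rpow_of_exponent_le h1 hp.le
          _ = (min ⊤ ((n + 1 : ℕ) : ℝ≥0∞)) ^ p := by rw [min_eq_right le_top]
      rw [this]; exact le_top
    · obtain ⟨n, hn⟩ := ENNReal.exists_nat_gt hx
      refine le_trans (le_of_eq ?_) (le_iSup _ n)
      rw [min_eq_left hn.le]
  calc ∫⁻ x, (Hop T φ x) ^ p ∂μ ≤ ∫⁻ x, ⨆ n : ℕ, (min (Hop T φ x) (n : ℝ≥0∞)) ^ p ∂μ :=
        lintegral_mono hle
    _ = ⨆ n : ℕ, ∫⁻ x, (min (Hop T φ x) (n : ℝ≥0∞)) ^ p ∂μ :=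
        lintegral_iSup (fun n => ((meas_Hop T φ).min measurable_const).pow_const p) hmono
    _ ≤ _ := iSup_le (fun n => main_n T hE hp w μ hiso φ n)

end Pool.Agent.X136.KP
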